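import Pool.Agent.U469.RT.Stm

/-!
# Project RT, package OPW: `1 - U r` is the second difference times an element acting with `r²/3`
-/

set_option autoImplicit false

namespace Pool.Agent.U15.RT.OPW

open Pool.Agent.R248.Ritt Pool.Agent.U469.RT Finset

/-- the symmetric form of `U r` -/
lemma smul_U (r : ℕ) : (2 * r + 1 : ℝ) • U r =
    ∑ x ∈ range (r + 1), (T (x : ℤ) + T (-(x : ℤ))) - 1 := by
  have h1 : (2 * r + 1 : ℝ) • U r = ∑ i ∈ range (2 * r + 1), T ((i : ℤ) - r) := by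
    unfold U
    rw [smul_smul, mul_inv_cancel₀ (by positivity), one_smul]
  have h3 : ∑ i ∈ range (2 * r + 1), T ((i : ℤ) - r) =
      ∑ i ∈ range r, T ((i : ℤ) - r) + ∑ i ∈ range (r + 1), T (i : ℤ) := by
    rw [show 2 * r + 1 = r + (r + 1) by ring, sum_range_add]
    congr 1
    refine sum_congr rfl fun i _ => ?_
    congr 1
    push_cast
    ring
  have h4 : ∑ i ∈ range r, T ((i : ℤ) - r) = ∑ i ∈ range r, T (-((i + 1 : ℕ) : ℤ)) := by
    rw [← Finset.sum_range_reflect]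
    refine sum_congr rfl fun i hi => ?_
    have := Finset.mem_range.1 hi
    congr 1
    omega
  have h5 := Finset.sum_range_succ' (fun i : ℕ => T (-(i : ℤ))) r
  rw [h1, h3, h4, sum_add_distrib, h5]
  simp [T_zero]
  ring

/-- the product of two segments -/
noncomputable def Q (x : ℕ) : A :=
  (∑ i ∈ range x, T (i : ℤ)) * ∑ i ∈ range x, T (-(i : ℤ))

lemma Q_succ (x : ℕ) : Q (x + 1) = Q x + (2 * x + 1 : ℝ) • U x := by
  have h1 : (∑ i ∈ range x, T (i : ℤ)) * T (-(x : ℤ)) = ∑ j ∈ range x, T (-((j + 1 : ℕ) : ℤ)) := by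
    rw [Finset.sum_mul, ← Finset.sum_range_reflect]
    refine sum_congr rfl fun i hi => ?_
    have := Finset.mem_range.1 hi
    rw [T_mul]
    congr 1
    omega
  have h2 : T (x : ℤ) * (∑ i ∈ range x, T (-(i : ℤ))) = ∑ j ∈ range x, T ((j + 1 : ℕ) : ℤ) := by
    rw [Finset.mul_sum, ← Finset.sum_range_reflect]
    refine sum_congr rfl fun i hi => ?_
    have := Finset.mem_range.1 hi
    rw [T_mul]
    congr 1
    omega
  have h3 : T (x : ℤ) * T (-(x : ℤ)) = 1 := by rw [T_mul]; simp [T_zero]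
  have h4 := Finset.sum_range_succ' (fun i : ℕ => T (-(i : ℤ))) x
  have h5 := Finset.sum_range_succ' (fun i : ℕ => T (i : ℤ)) x
  have e0 : T (-((0 : ℕ) : ℤ)) = (1 : A) := by simp [T_zero]
  have e1 : T ((0 : ℕ) : ℤ) = (1 : A) := by simp [T_zero]
  rw [e0] at h4
  rw [e1] at h5
  rw [smul_U, sum_add_distrib, h4, h5, ← h1, ← h2]
  unfold Q
  rw [Finset.sum_range_succ, Finset.sum_range_succ]
  linear_combination h3

lemma Q_eq (x : ℕ) : Q x = ∑ l ∈ range x, (2 * l + 1 : ℝ) • U l := by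
  induction x with
  | zero => simp [Q]
  | succ x ih => rw [Q_succ, ih, Finset.sum_range_succ]

lemma Q_D (x : ℕ) : Q x * ((1 - T 1) * (1 - T (-1))) = 2 - T x - T (-(x : ℤ)) := by
  have hG : ∀ x : ℕ, (1 - T 1) * ∑ i ∈ range x, T (i : ℤ) = 1 - T x := by
    intro x
    rw [Finset.mul_sum]
    have : ∀ i : ℕ, (1 - T 1) * T (i : ℤ) = T (i : ℤ) - T ((i + 1 : ℕ) : ℤ) := by
      intro i
      rw [sub_mul, one_mul, T_mul, add_comm]
      push_cast
      rfl
    simp only [this]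
    rw [Finset.sum_range_sub' (fun i : ℕ => T (i : ℤ))]
    simp [T_zero]
  have hG' : ∀ x : ℕ, (1 - T (-1)) * ∑ i ∈ range x, T (-(i : ℤ)) = 1 - T (-(x : ℤ)) := by
    intro x
    rw [Finset.mul_sum]
    have : ∀ i : ℕ, (1 - T (-1)) * T (-(i : ℤ)) = T (-(i : ℤ)) - T (-((i + 1 : ℕ) : ℤ)) := by
      intro i
      rw [sub_mul, one_mul, T_mul]
      congr 2
      push_cast
      ring
    simp only [this]
    rw [Finset.sum_range_sub' (fun i : ℕ => T (-(i : ℤ)))]
    simp [T_zero]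
  have e : Q x * ((1 - T 1) * (1 - T (-1))) = (1 - T x) * (1 - T (-(x : ℤ))) := by
    rw [← hG, ← hG', Q]
    ring
  rw [e]
  have h : T (x : ℤ) * T (-(x : ℤ)) = 1 := by rw [T_mul]; simp [T_zero]
  linear_combination h

lemma smul_one_sub_U (r : ℕ) :
    (2 * r + 1 : ℝ) • (1 - U r) = ∑ x ∈ range (r + 1), (2 - T x - T (-(x : ℤ))) := by
  rw [smul_sub, smul_U]
  have h6 : ∑ x ∈ range (r + 1), (2 - T (x:ℤ) - T (-(x : ℤ))) =
      (r + 1 : ℕ) • (2 : A) - ∑ x ∈ range (r + 1), (T (x : ℤ) + T (-(x : ℤ))) := by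
    have : ∀ x : ℕ, 2 - T (x:ℤ) - T (-(x : ℤ)) = 2 - (T (x : ℤ) + T (-(x : ℤ))) := fun x => by ring
    simp only [this]
    rw [sum_sub_distrib]
    simp
  rw [h6]
  have h7 : (2 * r + 1 : ℝ) • (1 : A) = (r + 1 : ℕ) • (2 : A) - 1 := by
    have e1 : (2 * r + 1 : ℝ) • (1 : A) = ((2 * r + 1 : ℕ) : A) := by
      have := Nat.cast_smul_eq_nsmul ℝ (2 * r + 1) (1 : A)
      rw [nsmul_one] at this
      rw [← this]
      push_cast
      rfl
    rw [e1, nsmul_eq_mul]
    push_cast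
    ring
  rw [h7]
  ring

theorem t_OPW (hR : S_OPR) : S_OPW := by
  obtain ⟨-, hU, -, hsmul, hsum, -, hmono⟩ := hR
  intro r
  have hQ : ∀ x : ℕ, Op ((x : ℝ) ^ 2) 0 (Q x) := by
    intro x
    rw [Q_eq]
    have h1 := hsum ℕ (range x) (fun l => |(2 * l + 1 : ℝ)| * 1) (fun l => |(2 * l + 1 : ℝ)| * 0)
      (fun l => (2 * l + 1 : ℝ) • U l) fun l _ => hsmul 1 0 _ _ (hU l)
    refine hmono _ _ _ _ _ (le_of_eq ?_) (by simp) h1
    have h2 : ∀ l : ℕ, |(2 * l + 1 : ℝ)| * 1 = 2 * l + 1 := fun l => by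
      rw [mul_one, abs_of_pos (by positivity)]
    simp only [h2]
    induction x with
    | zero => simp
    | succ n ih =>
      rw [sum_range_succ, ih (hsum ℕ (range n) (fun l => |(2 * l + 1 : ℝ)| * 1)
        (fun l => |(2 * l + 1 : ℝ)| * 0) (fun l => (2 * l + 1 : ℝ) • U l)
          fun l _ => hsmul 1 0 _ _ (hU l))]
      push_cast
      ring
  refine ⟨((2 * r + 1 : ℝ))⁻¹ • ∑ x ∈ range (r + 1), Q x, ?_, ?_⟩
  · have h1 : (2 * r + 1 : ℝ) • (1 - U r) =
        (∑ x ∈ range (r + 1), Q x) * ((1 - T 1) * (1 - T (-1))) := by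
      rw [smul_one_sub_U, Finset.sum_mul]
      exact sum_congr rfl fun x _ => (Q_D x).symm
    have h2 : 1 - U r = ((2 * r + 1 : ℝ))⁻¹ • ((2 * r + 1 : ℝ) • (1 - U r)) := by
      rw [smul_smul, inv_mul_cancel₀ (by positivity), one_smul]
    rw [h2, h1, mul_assoc, smul_mul_assoc]
  · have h1 := hsmul _ _ ((2 * r + 1 : ℝ))⁻¹ _ (hsum ℕ (range (r + 1)) (fun x => (x : ℝ) ^ 2)
      (fun _ => 0) (fun x => Q x) fun x _ => hQ x)
    refine hmono _ _ _ _ _ ?_ (by simp) h1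
    rw [abs_of_pos (by positivity)]
    have h2 : ∑ x ∈ range (r + 1), (x : ℝ) ^ 2 = (r : ℝ) * (r + 1) * (2 * r + 1) / 6 := by
      clear h1
      induction r with
      | zero => simp
      | succ n ih =>
        rw [sum_range_succ, ih]
        push_cast
        ring
    rw [h2]
    calc (2 * (r:ℝ) + 1)⁻¹ * ((r : ℝ) * (r + 1) * (2 * r + 1) / 6)
        = (r : ℝ) * (r + 1) / 6 := by field_simp
      _ ≤ (r : ℝ) ^ 2 / 3 := by
          rcases Nat.eq_zero_or_pos r with h | h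
          · subst h; simp
          · have : (1:ℝ) ≤ r := by exact_mod_cast h
            nlinarith

end Pool.Agent.U15.RT.OPW
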